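import Mathlib

/-!
# M-expansive pairs of binary operations: the entropy criterion

A pair `(φ, ψ)` of binary operations on a finite set is M-expansive if and only if every pair
of probability vectors `μ, ν` has a coupling `π` with
`H(μ) + H(ν) ≤ H(φ_# π) + H(ψ_# π)`; and if and only if every extension of the pair by
bijections of fibres is expansive for plain cardinalities.
-/

namespace Pool.Agent.Lib_helper58.MExp

open Finset

variable {S : Type*} [Fintype S] [DecidableEq S]

/-- The quadruple `(α, β, γ, δ)` of nonnegative functions is compatible with `(φ, ψ)`. -/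
def Compatible (φ ψ : S → S → S) (α β γ δ : S → ℝ) : Prop :=
  (∀ s, 0 ≤ α s) ∧ (∀ s, 0 ≤ β s) ∧ (∀ s, 0 ≤ γ s) ∧ (∀ s, 0 ≤ δ s) ∧
    ∀ a b, α a * β b ≤ γ (φ a b) * δ (ψ a b)

/-- `(φ, ψ)` is M-expansive. -/
def MExpansive (φ ψ : S → S → S) : Prop :=
  ∀ α β γ δ : S → ℝ, Compatible φ ψ α β γ δ → ∀ A B : Finset S,
    (∑ a ∈ A, α a) * (∑ b ∈ B, β b) ≤
      (∑ c ∈ image₂ φ A B, γ c) * (∑ d ∈ image₂ ψ A B, δ d)

/-- Probability vectors on `S`. -/
def IsProb (μ : S → ℝ) : Prop := (∀ s, 0 ≤ μ s) ∧ ∑ s, μ s = 1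

/-- Shannon entropy (natural logarithm, `0 log 0 = 0`). -/
noncomputable def entropy (μ : S → ℝ) : ℝ := ∑ s, Real.negMulLog (μ s)

/-- `π` is a coupling of `μ` and `ν`: a nonnegative matrix with row sums `μ`, column sums `ν`. -/
def IsCoupling (π : S → S → ℝ) (μ ν : S → ℝ) : Prop :=
  (∀ a b, 0 ≤ π a b) ∧ (∀ a, ∑ b, π a b = μ a) ∧ (∀ b, ∑ a, π a b = ν b)

/-- The image of the matrix `π` under the operation `φ`. -/
def push (φ : S → S → S) (π : S → S → ℝ) (c : S) : ℝ :=
  ∑ a, ∑ b, if φ a b = c then π a b else 0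

/-- The entropy criterion. -/
def EntropyExpansive (φ ψ : S → S → S) : Prop :=
  ∀ μ ν : S → ℝ, IsProb μ → IsProb ν → ∃ π : S → S → ℝ, IsCoupling π μ ν ∧
    entropy μ + entropy ν ≤ entropy (push φ π) + entropy (push ψ π)

/-- `(Φ, Ψ)` is expansive for cardinalities. -/
def CardExpansive {X : Type*} [DecidableEq X] (Φ Ψ : X → X → X) : Prop :=
  ∀ A B : Finset X, A.card * B.card ≤ (image₂ Φ A B).card * (image₂ Ψ A B).card

/-- First operation of the extension of `(φ, ψ)` by bijections `e s s'` of `T × T`. -/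
def extFst {T : Type*} (φ : S → S → S) (e : S → S → Equiv.Perm (T × T)) :
    S × T → S × T → S × T :=
  fun x y => (φ x.1 y.1, (e x.1 y.1 (x.2, y.2)).1)

/-- Second operation of the extension of `(φ, ψ)` by bijections `e s s'` of `T × T`. -/
def extSnd {T : Type*} (ψ : S → S → S) (e : S → S → Equiv.Perm (T × T)) :
    S × T → S × T → S × T :=
  fun x y => (ψ x.1 y.1, (e x.1 y.1 (x.2, y.2)).2)

/-! ### Elementary facts -/

lemma sum_push_mul (φ : S → S → S) (π : S → S → ℝ) (w : S → ℝ) :
    ∑ c, push φ π c * w c = ∑ a, ∑ b, π a b * w (φ a b) := by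
  unfold push
  simp_rw [Finset.sum_mul, ite_mul, zero_mul]
  rw [Finset.sum_comm]
  refine Finset.sum_congr rfl fun a _ => ?_
  rw [Finset.sum_comm]
  refine Finset.sum_congr rfl fun b _ => ?_
  rw [Finset.sum_ite_eq Finset.univ (φ a b) (fun c => π a b * w c)]
  simp

lemma sum_push (φ : S → S → S) (π : S → S → ℝ) :
    ∑ c, push φ π c = ∑ a, ∑ b, π a b := by
  simpa using sum_push_mul φ π (fun _ => 1)

lemma push_nonneg (φ : S → S → S) {π : S → S → ℝ} (h : ∀ a b, 0 ≤ π a b) (c : S) :
    0 ≤ push φ π c := by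
  unfold push
  refine Finset.sum_nonneg fun a _ => Finset.sum_nonneg fun b _ => ?_
  split_ifs
  · exact h a b
  · exact le_refl _

lemma le_push (φ : S → S → S) {π : S → S → ℝ} (h : ∀ a b, 0 ≤ π a b) (a b : S) :
    π a b ≤ push φ π (φ a b) := by
  unfold push
  have h1 : (∑ b', if φ a b' = φ a b then π a b' else 0) ≤
      ∑ a', ∑ b', if φ a' b' = φ a b then π a' b' else 0 := by
    refine Finset.single_le_sum (f := fun a' => ∑ b', if φ a' b' = φ a b then π a' b' else 0)
      (fun a' _ => Finset.sum_nonneg fun b' _ => ?_) (Finset.mem_univ a)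
    split_ifs
    · exact h a' b'
    · exact le_refl _
  have h2 : (if φ a b = φ a b then π a b else 0) ≤
      ∑ b', if φ a b' = φ a b then π a b' else 0 := by
    refine Finset.single_le_sum (f := fun b' => if φ a b' = φ a b then π a b' else 0)
      (fun b' _ => ?_) (Finset.mem_univ b)
    split_ifs
    · exact h a b'
    · exact le_refl _
  simp only [if_true] at h2
  linarith

lemma exists_of_push_ne_zero (φ : S → S → S) {π : S → S → ℝ} {c : S} (h : push φ π c ≠ 0) :
    ∃ a b, φ a b = c ∧ π a b ≠ 0 := by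
  by_contra hcon
  push Not at hcon
  apply h
  unfold push
  refine Finset.sum_eq_zero fun a _ => Finset.sum_eq_zero fun b _ => ?_
  split_ifs with hab
  · exact hcon a b hab
  · rfl

/-- Gibbs' inequality. -/
lemma gibbs (X : Finset S) (μ w : S → ℝ) (hμ : ∀ s, 0 ≤ μ s) (hsum : ∑ s, μ s = 1)
    (hw : ∀ s, 0 ≤ w s) (hsupp : ∀ s, μ s ≠ 0 → s ∈ X ∧ 0 < w s) :
    entropy μ + ∑ s, μ s * Real.log (w s) ≤ Real.log (∑ s ∈ X, w s) := by
  have hpos : 0 < ∑ s ∈ X, w s := by
    have : ∃ s, μ s ≠ 0 := by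
      by_contra hcon
      push Not at hcon
      simp [hcon] at hsum
    obtain ⟨s, hs⟩ := this
    obtain ⟨hsX, hws⟩ := hsupp s hs
    exact lt_of_lt_of_le hws (Finset.single_le_sum (fun i _ => hw i) hsX)
  set W := ∑ s ∈ X, w s with hW
  have key : ∀ s, Real.negMulLog (μ s) + μ s * Real.log (w s) - μ s * Real.log W ≤
      (if s ∈ X then w s / W else 0) - μ s := by
    intro s
    by_cases hs : μ s = 0
    · rw [hs]
      simp only [Real.negMulLog_zero, zero_mul, add_zero, sub_zero]
      split_ifs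
      · exact div_nonneg (hw s) hpos.le
      · exact le_refl _
    · obtain ⟨hsX, hws⟩ := hsupp s hs
      have hμs : 0 < μ s := lt_of_le_of_ne (hμ s) (Ne.symm hs)
      rw [if_pos hsX]
      have h1 : Real.log (w s / (μ s * W)) ≤ w s / (μ s * W) - 1 :=
        Real.log_le_sub_one_of_pos (by positivity)
      have h2 : Real.log (w s / (μ s * W)) = Real.log (w s) - Real.log (μ s) - Real.log W := by
        rw [Real.log_div hws.ne' (by positivity), Real.log_mul hμs.ne' hpos.ne']
        ring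
      have h3 : μ s * (w s / (μ s * W) - 1) = w s / W - μ s := by
        field_simp
      have h4 := mul_le_mul_of_nonneg_left h1 hμs.le
      rw [h2, h3] at h4
      unfold Real.negMulLog
      nlinarith [h4]
  have hs := Finset.sum_le_sum (fun s (_ : s ∈ Finset.univ) => key s)
  rw [Finset.sum_sub_distrib, Finset.sum_add_distrib, ← Finset.sum_mul, hsum,
    Finset.sum_sub_distrib, hsum] at hs
  have h5 : ∑ s, (if s ∈ X then w s / W else 0) = 1 := by
    rw [← Finset.sum_filter]
    simp only [Finset.filter_univ_mem]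
    rw [← Finset.sum_div, ← hW, div_self hpos.ne']
  rw [h5] at hs
  unfold entropy
  linarith

/-- Entropy of a normalised weight. -/
lemma entropy_normalised (A : Finset S) (α : S → ℝ) (hα : ∀ s, 0 ≤ α s)
    (h0 : 0 < ∑ a ∈ A, α a) :
    entropy (fun s => if s ∈ A then α s / (∑ a ∈ A, α a) else 0) +
      ∑ s, (if s ∈ A then α s / (∑ a ∈ A, α a) else 0) * Real.log (α s) =
      Real.log (∑ a ∈ A, α a) := by
  set W := ∑ a ∈ A, α a with hW
  have key : ∀ s, Real.negMulLog (if s ∈ A then α s / W else 0) +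
      (if s ∈ A then α s / W else 0) * Real.log (α s) =
      (if s ∈ A then α s / W else 0) * Real.log W := by
    intro s
    split_ifs with hs
    · by_cases hz : α s = 0
      · simp [hz]
      · have : 0 < α s := lt_of_le_of_ne (hα s) (Ne.symm hz)
        unfold Real.negMulLog
        rw [Real.log_div this.ne' h0.ne']
        ring
    · simp
  unfold entropy
  rw [← Finset.sum_add_distrib, Finset.sum_congr rfl (fun s _ => key s), ← Finset.sum_mul]
  have h5 : ∑ s, (if s ∈ A then α s / W else 0) = 1 := by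
    rw [← Finset.sum_filter]
    simp only [Finset.filter_univ_mem]
    rw [← Finset.sum_div, ← hW, div_self h0.ne']
  rw [h5, one_mul]

/-! ### The entropy criterion implies M-expansivity -/

theorem mExpansive_of_entropyExpansive (φ ψ : S → S → S) (h : EntropyExpansive φ ψ) :
    MExpansive φ ψ := by
  rintro α β γ δ ⟨hα, hβ, hγ, hδ, hc⟩ A B
  have hR1 : 0 ≤ ∑ c ∈ image₂ φ A B, γ c := Finset.sum_nonneg fun i _ => hγ i
  have hR2 : 0 ≤ ∑ d ∈ image₂ ψ A B, δ d := Finset.sum_nonneg fun i _ => hδ i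
  rcases (Finset.sum_nonneg fun i (_ : i ∈ A) => hα i).eq_or_lt with ha | ha
  · rw [← ha, zero_mul]; positivity
  rcases (Finset.sum_nonneg fun i (_ : i ∈ B) => hβ i).eq_or_lt with hb | hb
  · rw [← hb, mul_zero]; positivity
  set a0 := ∑ a ∈ A, α a with ha0
  set b0 := ∑ b ∈ B, β b with hb0
  set μ : S → ℝ := fun s => if s ∈ A then α s / a0 else 0 with hμdef
  set ν : S → ℝ := fun s => if s ∈ B then β s / b0 else 0 with hνdef
  have hsumμ : ∑ s, μ s = 1 := by
    rw [hμdef]
    rw [← Finset.sum_filter]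
    simp only [Finset.filter_univ_mem]
    rw [← Finset.sum_div, ← ha0, div_self ha.ne']
  have hsumν : ∑ s, ν s = 1 := by
    rw [hνdef]
    rw [← Finset.sum_filter]
    simp only [Finset.filter_univ_mem]
    rw [← Finset.sum_div, ← hb0, div_self hb.ne']
  have hμp : IsProb μ := ⟨fun s => by
    simp only [hμdef]; split_ifs
    · exact div_nonneg (hα s) ha.le
    · exact le_refl _, hsumμ⟩
  have hνp : IsProb ν := ⟨fun s => by
    simp only [hνdef]; split_ifs
    · exact div_nonneg (hβ s) hb.le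
    · exact le_refl _, hsumν⟩
  obtain ⟨π, ⟨hπ, hrow, hcol⟩, hent⟩ := h μ ν hμp hνp
  -- support of π
  have hsupp : ∀ a b, π a b ≠ 0 → (a ∈ A ∧ 0 < α a) ∧ (b ∈ B ∧ 0 < β b) := by
    intro a b hab
    have hpos : 0 < π a b := lt_of_le_of_ne (hπ a b) (Ne.symm hab)
    have h1 : 0 < μ a := by
      rw [← hrow a]
      exact lt_of_lt_of_le hpos (Finset.single_le_sum (fun i _ => hπ a i) (Finset.mem_univ b))
    have h2 : 0 < ν b := by
      rw [← hcol b]
      exact lt_of_lt_of_le hpos
        (Finset.single_le_sum (f := fun i => π i b) (fun i _ => hπ i b) (Finset.mem_univ a))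
    constructor
    · simp only [hμdef] at h1
      split_ifs at h1 with haA
      · refine ⟨haA, ?_⟩
        by_contra hcon
        have : α a = 0 := le_antisymm (not_lt.mp hcon) (hα a)
        simp [this] at h1
      · exact absurd h1 (lt_irrefl _)
    · simp only [hνdef] at h2
      split_ifs at h2 with hbB
      · refine ⟨hbB, ?_⟩
        by_contra hcon
        have : β b = 0 := le_antisymm (not_lt.mp hcon) (hβ b)
        simp [this] at h2
      · exact absurd h2 (lt_irrefl _)
  have hposγδ : ∀ a b, π a b ≠ 0 → 0 < γ (φ a b) ∧ 0 < δ (ψ a b) := by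
    intro a b hab
    obtain ⟨⟨_, h1⟩, ⟨_, h2⟩⟩ := hsupp a b hab
    have h3 : 0 < γ (φ a b) * δ (ψ a b) := lt_of_lt_of_le (mul_pos h1 h2) (hc a b)
    constructor
    · exact lt_of_le_of_ne (hγ _) (fun h => by rw [← h, zero_mul] at h3; exact lt_irrefl _ h3)
    · exact lt_of_le_of_ne (hδ _) (fun h => by rw [← h, mul_zero] at h3; exact lt_irrefl _ h3)
  have hsumπ : ∑ a, ∑ b, π a b = 1 := by
    rw [Finset.sum_congr rfl (fun a _ => hrow a), hsumμ]
  have g1 := gibbs (image₂ φ A B) (push φ π) γ (push_nonneg φ hπ) (by rw [sum_push, hsumπ]) hγ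
    (fun c hcne => by
      obtain ⟨a, b, hab, hne⟩ := exists_of_push_ne_zero φ hcne
      obtain ⟨⟨haA, _⟩, ⟨hbB, _⟩⟩ := hsupp a b hne
      refine ⟨?_, ?_⟩
      · rw [← hab]; exact mem_image₂_of_mem haA hbB
      · rw [← hab]; exact (hposγδ a b hne).1)
  have g2 := gibbs (image₂ ψ A B) (push ψ π) δ (push_nonneg ψ hπ) (by rw [sum_push, hsumπ]) hδ
    (fun c hcne => by
      obtain ⟨a, b, hab, hne⟩ := exists_of_push_ne_zero ψ hcne
      obtain ⟨⟨haA, _⟩, ⟨hbB, _⟩⟩ := hsupp a b hne
      refine ⟨?_, ?_⟩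
      · rw [← hab]; exact mem_image₂_of_mem haA hbB
      · rw [← hab]; exact (hposγδ a b hne).2)
  rw [sum_push_mul φ π (fun s => Real.log (γ s))] at g1
  rw [sum_push_mul ψ π (fun s => Real.log (δ s))] at g2
  have e1 := entropy_normalised A α hα ha
  have e2 := entropy_normalised B β hβ hb
  rw [← ha0] at e1
  rw [← hb0] at e2
  -- rewrite marginal sums
  have m1 : ∑ s, μ s * Real.log (α s) = ∑ a, ∑ b, π a b * Real.log (α a) := by
    refine Finset.sum_congr rfl fun a _ => ?_
    rw [← hrow a, Finset.sum_mul]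
  have m2 : ∑ s, ν s * Real.log (β s) = ∑ a, ∑ b, π a b * Real.log (β b) := by
    rw [Finset.sum_comm]
    refine Finset.sum_congr rfl fun b _ => ?_
    rw [← hcol b, Finset.sum_mul]
  have hle : ∑ a, ∑ b, π a b * Real.log (α a) + ∑ a, ∑ b, π a b * Real.log (β b) ≤
      ∑ a, ∑ b, π a b * Real.log (γ (φ a b)) + ∑ a, ∑ b, π a b * Real.log (δ (ψ a b)) := by
    rw [← Finset.sum_add_distrib, ← Finset.sum_add_distrib]
    refine Finset.sum_le_sum fun a _ => ?_
    rw [← Finset.sum_add_distrib, ← Finset.sum_add_distrib]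
    refine Finset.sum_le_sum fun b _ => ?_
    by_cases hz : π a b = 0
    · simp [hz]
    · obtain ⟨⟨_, h1⟩, ⟨_, h2⟩⟩ := hsupp a b hz
      obtain ⟨h3, h4⟩ := hposγδ a b hz
      rw [← mul_add, ← mul_add, ← Real.log_mul h1.ne' h2.ne', ← Real.log_mul h3.ne' h4.ne']
      exact mul_le_mul_of_nonneg_left (Real.log_le_log (mul_pos h1 h2) (hc a b)) (hπ a b)
  have hΓ : 0 < ∑ c ∈ image₂ φ A B, γ c := by
    have : ∃ a b, π a b ≠ 0 := by
      by_contra hcon
      push Not at hcon
      simp [hcon] at hsumπ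
    obtain ⟨a, b, hab⟩ := this
    obtain ⟨⟨haA, _⟩, ⟨hbB, _⟩⟩ := hsupp a b hab
    exact lt_of_lt_of_le (hposγδ a b hab).1
      (Finset.single_le_sum (fun i _ => hγ i) (mem_image₂_of_mem haA hbB))
  have hΔ : 0 < ∑ d ∈ image₂ ψ A B, δ d := by
    have : ∃ a b, π a b ≠ 0 := by
      by_contra hcon
      push Not at hcon
      simp [hcon] at hsumπ
    obtain ⟨a, b, hab⟩ := this
    obtain ⟨⟨haA, _⟩, ⟨hbB, _⟩⟩ := hsupp a b hab
    exact lt_of_lt_of_le (hposγδ a b hab).2
      (Finset.single_le_sum (fun i _ => hδ i) (mem_image₂_of_mem haA hbB))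
  have hfin : Real.log (a0 * b0) ≤
      Real.log ((∑ c ∈ image₂ φ A B, γ c) * (∑ d ∈ image₂ ψ A B, δ d)) := by
    rw [Real.log_mul ha.ne' hb.ne', Real.log_mul hΓ.ne' hΔ.ne']
    have e1' : entropy μ + ∑ s, μ s * Real.log (α s) = Real.log a0 := e1
    have e2' : entropy ν + ∑ s, ν s * Real.log (β s) = Real.log b0 := e2
    linarith [e1', e2', m1, m2, hle, hent, g1, g2]
  exact (Real.log_le_log_iff (mul_pos ha hb) (mul_pos hΓ hΔ)).mp hfin

/-! ### M-expansivity implies the entropy criterion -/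

/-- The sum of the two output entropies. -/
noncomputable def F (φ ψ : S → S → S) (π : S → S → ℝ) : ℝ :=
  entropy (push φ π) + entropy (push ψ π)

lemma continuous_push (φ : S → S → S) (c : S) : Continuous fun π : S → S → ℝ => push φ π c := by
  unfold push
  refine continuous_finsetSum _ fun a _ => continuous_finsetSum _ fun b _ => ?_
  split_ifs
  · exact (continuous_apply b).comp (continuous_apply a)
  · exact continuous_const

lemma continuous_F (φ ψ : S → S → S) : Continuous (F φ ψ) := by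
  unfold F entropy
  refine Continuous.add ?_ ?_
  · exact continuous_finsetSum _ fun c _ => Real.continuous_negMulLog.comp (continuous_push φ c)
  · exact continuous_finsetSum _ fun c _ => Real.continuous_negMulLog.comp (continuous_push ψ c)

omit [DecidableEq S] in
lemma isCompact_couplings {μ ν : S → ℝ} (hμ : IsProb μ) :
    IsCompact {π : S → S → ℝ | IsCoupling π μ ν} := by
  have hK : IsCompact (Set.pi Set.univ fun _ : S => Set.pi Set.univ fun _ : S =>
      Set.Icc (0 : ℝ) 1) :=
    isCompact_univ_pi fun _ => isCompact_univ_pi fun _ => isCompact_Icc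
  refine hK.of_isClosed_subset ?_ ?_
  · have : {π : S → S → ℝ | IsCoupling π μ ν} =
        (⋂ a, ⋂ b, {π : S → S → ℝ | 0 ≤ π a b}) ∩
        ((⋂ a, {π : S → S → ℝ | ∑ b, π a b = μ a}) ∩
          (⋂ b, {π : S → S → ℝ | ∑ a, π a b = ν b})) := by
      ext π
      simp only [IsCoupling, Set.mem_ofPred_eq, Set.mem_inter_iff, Set.mem_iInter]
    rw [this]
    refine IsClosed.inter ?_ (IsClosed.inter ?_ ?_)
    · exact isClosed_iInter fun a => isClosed_iInter fun b =>
        isClosed_le continuous_const ((continuous_apply b).comp (continuous_apply a))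
    · exact isClosed_iInter fun a => isClosed_eq
        (continuous_finsetSum _ fun b _ => (continuous_apply b).comp (continuous_apply a))
        continuous_const
    · exact isClosed_iInter fun b => isClosed_eq
        (continuous_finsetSum _ fun a _ => (continuous_apply b).comp (continuous_apply a))
        continuous_const
  · rintro π ⟨h0, hrow, _⟩
    simp only [Set.mem_pi, Set.mem_univ, true_implies, Set.mem_Icc]
    intro a b
    refine ⟨h0 a b, ?_⟩
    have h1 : π a b ≤ μ a := by
      rw [← hrow a]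
      exact Finset.single_le_sum (fun i _ => h0 a i) (Finset.mem_univ b)
    have h2 : μ a ≤ 1 := by
      rw [← hμ.2]
      exact Finset.single_le_sum (fun i _ => hμ.1 i) (Finset.mem_univ a)
    linarith

lemma push_add_smul (φ : S → S → S) (π η : S → S → ℝ) (t : ℝ) (c : S) :
    push φ (fun a b => π a b + t * η a b) c = push φ π c + t * push φ η c := by
  unfold push
  rw [Finset.mul_sum, ← Finset.sum_add_distrib]
  refine Finset.sum_congr rfl fun a _ => ?_
  rw [Finset.mul_sum, ← Finset.sum_add_distrib]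
  refine Finset.sum_congr rfl fun b _ => ?_
  split_ifs <;> simp

/-- Derivative of the entropy of an image along a line. -/
lemma hasDerivAt_entropy_push (φ : S → S → S) (π η : S → S → ℝ)
    (hpos : ∀ c, push φ η c ≠ 0 → 0 < push φ π c) (h0 : ∑ a, ∑ b, η a b = 0) :
    HasDerivAt (fun t : ℝ => entropy (push φ (fun a b => π a b + t * η a b)))
      (-∑ a, ∑ b, η a b * Real.log (push φ π (φ a b))) 0 := by
  have key : ∀ c, HasDerivAt (fun t : ℝ => Real.negMulLog (push φ π c + t * push φ η c))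
      ((-Real.log (push φ π c) - 1) * push φ η c) 0 := by
    intro c
    by_cases hc : push φ η c = 0
    · simp only [hc, mul_zero, add_zero]
      exact hasDerivAt_const _ _
    · have h1 : HasDerivAt (fun t : ℝ => push φ π c + t * push φ η c) (push φ η c) 0 := by
        have := ((hasDerivAt_id (0 : ℝ)).mul_const (push φ η c)).const_add (push φ π c)
        simpa using this
      have h2 : HasDerivAt Real.negMulLog (-Real.log (push φ π c) - 1)
          (push φ π c + 0 * push φ η c) := by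
        rw [zero_mul, add_zero]
        exact Real.hasDerivAt_negMulLog (hpos c hc).ne'
      exact h2.comp 0 h1
  have hs : HasDerivAt (fun t : ℝ => ∑ c, Real.negMulLog (push φ π c + t * push φ η c))
      (∑ c, (-Real.log (push φ π c) - 1) * push φ η c) 0 := by
    have := HasDerivAt.fun_sum (u := Finset.univ) (fun c _ => key c)
    exact this
  have e1 : (∑ c, (-Real.log (push φ π c) - 1) * push φ η c) =
      -∑ a, ∑ b, η a b * Real.log (push φ π (φ a b)) := by
    have h1 := sum_push_mul φ η (fun c => -Real.log (push φ π c) - 1)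
    have h2 : (∑ c, (-Real.log (push φ π c) - 1) * push φ η c) =
        ∑ c, push φ η c * (-Real.log (push φ π c) - 1) :=
      Finset.sum_congr rfl fun c _ => mul_comm _ _
    rw [h2, h1]
    have h3 : ∀ a b, η a b * (-Real.log (push φ π (φ a b)) - 1) =
        -(η a b * Real.log (push φ π (φ a b))) - η a b := fun a b => by ring
    simp_rw [h3, Finset.sum_sub_distrib, Finset.sum_neg_distrib]
    rw [h0, sub_zero]
  rw [e1] at hs
  have e2 : (fun t : ℝ => entropy (push φ (fun a b => π a b + t * η a b))) =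
      fun t : ℝ => ∑ c, Real.negMulLog (push φ π c + t * push φ η c) := by
    funext t
    unfold entropy
    exact Finset.sum_congr rfl fun c _ => by rw [push_add_smul]
  rw [e2]
  exact hs

/-- The first order condition at a maximiser of the regularised functional. -/
lemma first_order (φ ψ : S → S → S) {μ ν : S → ℝ} (A0 B0 : Finset S) (N : ℝ) (hN : 0 < N)
    (π : S → S → ℝ) (hπ : IsCoupling π μ ν) (hpos : ∀ a ∈ A0, ∀ b ∈ B0, 0 < π a b)
    (hmax : ∀ π' : S → S → ℝ, IsCoupling π' μ ν →
      Real.exp (N * F φ ψ π') * ∏ a ∈ A0, ∏ b ∈ B0, π' a b ≤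
      Real.exp (N * F φ ψ π) * ∏ a ∈ A0, ∏ b ∈ B0, π a b)
    (η : S → S → ℝ) (hη1 : ∀ a, ∑ b, η a b = 0) (hη2 : ∀ b, ∑ a, η a b = 0)
    (hη3 : ∀ a b, η a b ≠ 0 → a ∈ A0 ∧ b ∈ B0) :
    ∑ a, ∑ b, η a b * (-Real.log (push φ π (φ a b)) - Real.log (push ψ π (ψ a b)) +
      1 / (N * π a b)) = 0 := by
  have hη0 : ∑ a, ∑ b, η a b = 0 := Finset.sum_eq_zero fun a _ => hη1 a
  have hp : ∀ (χ : S → S → S) (c : S), push χ η c ≠ 0 → 0 < push χ π c := by
    intro χ c hc
    obtain ⟨a, b, hab, hne⟩ := exists_of_push_ne_zero χ hc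
    obtain ⟨ha, hb⟩ := hη3 a b hne
    rw [← hab]
    exact lt_of_lt_of_le (hpos a ha b hb) (le_push χ hπ.1 a b)
  -- the one variable function
  let L : ℝ → ℝ := fun t => N * (entropy (push φ (fun a b => π a b + t * η a b)) +
    entropy (push ψ (fun a b => π a b + t * η a b))) +
    ∑ a ∈ A0, ∑ b ∈ B0, Real.log (π a b + t * η a b)
  have hd : HasDerivAt L (N * ((-∑ a, ∑ b, η a b * Real.log (push φ π (φ a b))) +
      (-∑ a, ∑ b, η a b * Real.log (push ψ π (ψ a b)))) +
      ∑ a ∈ A0, ∑ b ∈ B0, η a b / π a b) 0 := by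
    refine HasDerivAt.add (HasDerivAt.const_mul N (HasDerivAt.add
      (hasDerivAt_entropy_push φ π η (hp φ) hη0) (hasDerivAt_entropy_push ψ π η (hp ψ) hη0))) ?_
    refine HasDerivAt.fun_sum fun a ha => HasDerivAt.fun_sum fun b hb => ?_
    have h1 : HasDerivAt (fun t : ℝ => π a b + t * η a b) (η a b) 0 := by
      have := ((hasDerivAt_id (0 : ℝ)).mul_const (η a b)).const_add (π a b)
      simpa using this
    have h2 := h1.log (by simpa using (hpos a ha b hb).ne')
    simpa using h2
  have hloc : IsLocalMax L 0 := by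
    -- for small t the perturbed matrix is a coupling with positive entries on A0 × B0
    have hev : ∀ᶠ t in nhds (0 : ℝ), ∀ a ∈ A0, ∀ b ∈ B0, 0 < π a b + t * η a b := by
      rw [Finset.eventually_all]
      intro a ha
      rw [Finset.eventually_all]
      intro b hb
      have hcont : Continuous fun t : ℝ => π a b + t * η a b := by fun_prop
      have : Filter.Tendsto (fun t : ℝ => π a b + t * η a b) (nhds 0) (nhds (π a b + 0 * η a b)) :=
        hcont.tendsto 0
      rw [zero_mul, add_zero] at this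
      exact this.eventually (lt_mem_nhds (hpos a ha b hb))
    filter_upwards [hev] with t ht
    have hcpl : IsCoupling (fun a b => π a b + t * η a b) μ ν := by
      refine ⟨fun a b => ?_, fun a => ?_, fun b => ?_⟩
      · by_cases hz : η a b = 0
        · simpa [hz] using hπ.1 a b
        · obtain ⟨ha, hb⟩ := hη3 a b hz
          exact (ht a ha b hb).le
      · rw [Finset.sum_add_distrib, ← Finset.mul_sum, hη1 a, hπ.2.1 a]; simp
      · rw [Finset.sum_add_distrib, ← Finset.mul_sum, hη2 b, hπ.2.2 b]; simp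
    have hm := hmax _ hcpl
    have e1 : ∀ π' : S → S → ℝ, (∀ a ∈ A0, ∀ b ∈ B0, 0 < π' a b) →
        Real.log (Real.exp (N * F φ ψ π') * ∏ a ∈ A0, ∏ b ∈ B0, π' a b) =
        N * F φ ψ π' + ∑ a ∈ A0, ∑ b ∈ B0, Real.log (π' a b) := by
      intro π' hpos'
      have hpr : ∀ a ∈ A0, 0 < ∏ b ∈ B0, π' a b := fun a ha =>
        Finset.prod_pos fun b hb => hpos' a ha b hb
      rw [Real.log_mul (Real.exp_pos _).ne' (Finset.prod_pos hpr).ne', Real.log_exp,
        Real.log_prod (fun a ha => (hpr a ha).ne')]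
      congr 1
      refine Finset.sum_congr rfl fun a ha => ?_
      rw [Real.log_prod (fun b hb => (hpos' a ha b hb).ne')]
    have hl := Real.log_le_log (by
      have : 0 < ∏ a ∈ A0, ∏ b ∈ B0, (π a b + t * η a b) :=
        Finset.prod_pos fun a ha => Finset.prod_pos fun b hb => ht a ha b hb
      positivity) hm
    rw [e1 _ (fun a ha b hb => ht a ha b hb), e1 _ hpos] at hl
    simp only [L, zero_mul, add_zero]
    exact hl
  have h0 := hloc.hasDerivAt_eq_zero hd
  -- rewrite the last sum over all pairs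
  have e3 : ∑ a ∈ A0, ∑ b ∈ B0, η a b / π a b = ∑ a, ∑ b, η a b / π a b := by
    have h1 : ∀ a, ∑ b ∈ B0, η a b / π a b = ∑ b, η a b / π a b := by
      intro a
      refine Finset.sum_subset (Finset.subset_univ _) fun b _ hb => ?_
      have : η a b = 0 := by
        by_contra hne
        exact hb (hη3 a b hne).2
      simp [this]
    rw [Finset.sum_congr rfl fun a _ => h1 a]
    refine Finset.sum_subset (Finset.subset_univ _) fun a _ ha => ?_
    refine Finset.sum_eq_zero fun b _ => ?_
    have : η a b = 0 := by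
      by_contra hne
      exact ha (hη3 a b hne).1
    simp [this]
  rw [e3] at h0
  have e4 : ∀ a b, η a b * (-Real.log (push φ π (φ a b)) - Real.log (push ψ π (ψ a b)) +
      1 / (N * π a b)) = -(η a b * Real.log (push φ π (φ a b))) -
      η a b * Real.log (push ψ π (ψ a b)) + N⁻¹ * (η a b / π a b) := by
    intro a b
    rw [one_div, mul_inv]
    ring
  simp_rw [e4, Finset.sum_add_distrib, Finset.sum_sub_distrib, Finset.sum_neg_distrib,
    ← Finset.mul_sum]
  have h5 : N⁻¹ * (N * ((-∑ a, ∑ b, η a b * Real.log (push φ π (φ a b))) +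
      (-∑ a, ∑ b, η a b * Real.log (push ψ π (ψ a b)))) +
      ∑ a, ∑ b, η a b / π a b) = 0 := by rw [h0, mul_zero]
  rw [mul_add, ← mul_assoc, inv_mul_cancel₀ hN.ne', one_mul] at h5
  linarith

omit [DecidableEq S] in
lemma isCoupling_prod {μ ν : S → ℝ} (hμ : IsProb μ) (hν : IsProb ν) :
    IsCoupling (fun a b => μ a * ν b) μ ν := by
  refine ⟨fun a b => mul_nonneg (hμ.1 a) (hν.1 b), fun a => ?_, fun b => ?_⟩
  · rw [← Finset.mul_sum, hν.2, mul_one]
  · rw [← Finset.sum_mul, hμ.2, one_mul]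

lemma entropy_push_eq (φ : S → S → S) (π : S → S → ℝ) :
    entropy (push φ π) = -∑ a, ∑ b, π a b * Real.log (push φ π (φ a b)) := by
  rw [← sum_push_mul φ π (fun c => Real.log (push φ π c)), ← Finset.sum_neg_distrib]
  unfold entropy
  refine Finset.sum_congr rfl fun c _ => ?_
  unfold Real.negMulLog
  ring

/-- Approximate optimality from M-expansivity. -/
lemma approx (φ ψ : S → S → S) (h : MExpansive φ ψ) {μ ν : S → ℝ} (hμ : IsProb μ)
    (hν : IsProb ν) (N : ℝ) (hN : 0 < N) :
    ∃ π : S → S → ℝ, IsCoupling π μ ν ∧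
      entropy μ + entropy ν ≤ F φ ψ π + (Fintype.card S : ℝ) ^ 2 / N := by
  classical
  set A0 : Finset S := Finset.univ.filter (fun a => μ a ≠ 0) with hA0
  set B0 : Finset S := Finset.univ.filter (fun b => ν b ≠ 0) with hB0
  have memA : ∀ a, a ∈ A0 ↔ μ a ≠ 0 := fun a => by simp [hA0]
  have memB : ∀ b, b ∈ B0 ↔ ν b ≠ 0 := fun b => by simp [hB0]
  obtain ⟨a0, ha0⟩ : ∃ a, a ∈ A0 := by
    by_contra hcon
    push Not at hcon
    have : ∀ a, μ a = 0 := fun a => by
      by_contra hne; exact hcon a ((memA a).mpr hne)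
    have h1 := hμ.2
    simp [this] at h1
  obtain ⟨b0, hb0⟩ : ∃ b, b ∈ B0 := by
    by_contra hcon
    push Not at hcon
    have : ∀ b, ν b = 0 := fun b => by
      by_contra hne; exact hcon b ((memB b).mpr hne)
    have h1 := hν.2
    simp [this] at h1
  -- the maximiser
  let Ψ : (S → S → ℝ) → ℝ := fun π => Real.exp (N * F φ ψ π) * ∏ a ∈ A0, ∏ b ∈ B0, π a b
  have hcont : Continuous Ψ := by
    refine Continuous.mul (Real.continuous_exp.comp (continuous_const.mul (continuous_F φ ψ))) ?_
    exact continuous_finsetProd _ fun a _ => continuous_finsetProd _ fun b _ =>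
      (continuous_apply b).comp (continuous_apply a)
  obtain ⟨π, hπ, hmax⟩ := (isCompact_couplings (ν := ν) hμ).exists_isMaxOn
    ⟨_, isCoupling_prod hμ hν⟩ hcont.continuousOn
  have hπ' : IsCoupling π μ ν := hπ
  have hmax' : ∀ π' : S → S → ℝ, IsCoupling π' μ ν → Ψ π' ≤ Ψ π := fun π' h' => hmax h'
  have hΨpos : 0 < Ψ π := by
    refine lt_of_lt_of_le ?_ (hmax' _ (isCoupling_prod hμ hν))
    refine mul_pos (Real.exp_pos _) (Finset.prod_pos fun a ha => Finset.prod_pos fun b hb => ?_)
    exact mul_pos (lt_of_le_of_ne (hμ.1 a) (Ne.symm ((memA a).mp ha)))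
      (lt_of_le_of_ne (hν.1 b) (Ne.symm ((memB b).mp hb)))
  have hpos : ∀ a ∈ A0, ∀ b ∈ B0, 0 < π a b := by
    intro a ha b hb
    refine lt_of_le_of_ne (hπ'.1 a b) fun hz => ?_
    have : ∏ a ∈ A0, ∏ b ∈ B0, π a b = 0 := by
      refine Finset.prod_eq_zero ha ?_
      exact Finset.prod_eq_zero hb hz.symm
    simp only [Ψ, this, mul_zero, lt_self_iff_false] at hΨpos
  set p := push φ π with hp
  set q := push ψ π with hq
  have hppos : ∀ a ∈ A0, ∀ b ∈ B0, 0 < p (φ a b) := fun a ha b hb =>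
    lt_of_lt_of_le (hpos a ha b hb) (le_push φ hπ'.1 a b)
  have hqpos : ∀ a ∈ A0, ∀ b ∈ B0, 0 < q (ψ a b) := fun a ha b hb =>
    lt_of_lt_of_le (hpos a ha b hb) (le_push ψ hπ'.1 a b)
  let k : S → S → ℝ := fun a b => -Real.log (p (φ a b)) - Real.log (q (ψ a b)) + 1 / (N * π a b)
  have hsep : ∀ a ∈ A0, ∀ b ∈ B0, k a b = k a b0 + (k a0 b - k a0 b0) := by
    intro a ha b hb
    let u : S → ℝ := fun x => (if x = a then 1 else 0) - (if x = a0 then 1 else 0)
    let v : S → ℝ := fun y => (if y = b then 1 else 0) - (if y = b0 then 1 else 0)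
    have hu : ∑ x, u x = 0 := by simp [u, Finset.sum_sub_distrib]
    have hv : ∑ y, v y = 0 := by simp [v, Finset.sum_sub_distrib]
    have h1 := first_order φ ψ A0 B0 N hN π hπ' hpos hmax' (fun x y => u x * v y)
      (fun x => by rw [← Finset.mul_sum, hv, mul_zero])
      (fun y => by rw [← Finset.sum_mul, hu, zero_mul])
      (fun x y hxy => by
        have hux : u x ≠ 0 := left_ne_zero_of_mul hxy
        have hvy : v y ≠ 0 := right_ne_zero_of_mul hxy
        constructor
        · by_cases hx : x = a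
          · rw [hx]; exact ha
          · by_cases hx0 : x = a0
            · rw [hx0]; exact ha0
            · exact absurd (by simp [u, hx, hx0]) hux
        · by_cases hy : y = b
          · rw [hy]; exact hb
          · by_cases hy0 : y = b0
            · rw [hy0]; exact hb0
            · exact absurd (by simp [v, hy, hy0]) hvy)
    have h2 : ∑ x, ∑ y, u x * v y * k x y = k a b - k a b0 - (k a0 b - k a0 b0) := by
      have h3 : ∀ x, ∑ y, u x * v y * k x y = u x * (k x b - k x b0) := by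
        intro x
        have : ∀ y, u x * v y * k x y = u x * (v y * k x y) := fun y => by ring
        simp_rw [this, ← Finset.mul_sum]
        congr 1
        simp [v, sub_mul, Finset.sum_sub_distrib]
      simp_rw [h3]
      simp [u, sub_mul, Finset.sum_sub_distrib]
    have h4 : ∑ x, ∑ y, u x * v y * k x y = 0 := h1
    rw [h2] at h4
    linarith
  let f : S → ℝ := fun a => k a b0
  let g : S → ℝ := fun b => k a0 b - k a0 b0
  let α : S → ℝ := fun s => if s ∈ A0 then Real.exp (-f s) else 0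
  let β : S → ℝ := fun s => if s ∈ B0 then Real.exp (-g s) else 0
  have hα : ∀ s, 0 ≤ α s := fun s => by
    simp only [α]; split_ifs
    · exact (Real.exp_pos _).le
    · exact le_refl _
  have hβ : ∀ s, 0 ≤ β s := fun s => by
    simp only [β]; split_ifs
    · exact (Real.exp_pos _).le
    · exact le_refl _
  have hp0 : ∀ s, 0 ≤ p s := push_nonneg φ hπ'.1
  have hq0 : ∀ s, 0 ≤ q s := push_nonneg ψ hπ'.1
  have hcomp : Compatible φ ψ α β p q := by
    refine ⟨hα, hβ, hp0, hq0, fun a b => ?_⟩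
    by_cases ha : a ∈ A0
    · by_cases hb : b ∈ B0
      · simp only [α, β, if_pos ha, if_pos hb]
        rw [← Real.exp_add]
        have h1 : -f a + -g b = -k a b := by rw [hsep a ha b hb]; simp only [f, g]; ring
        rw [h1]
        have h2 : 0 < 1 / (N * π a b) := by
          have := hpos a ha b hb
          positivity
        have h3 : -k a b ≤ Real.log (p (φ a b)) + Real.log (q (ψ a b)) := by
          simp only [k]; linarith
        calc Real.exp (-k a b) ≤ Real.exp (Real.log (p (φ a b)) + Real.log (q (ψ a b))) :=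
              Real.exp_le_exp.mpr h3
          _ = p (φ a b) * q (ψ a b) := by
              rw [Real.exp_add, Real.exp_log (hppos a ha b hb), Real.exp_log (hqpos a ha b hb)]
      · simp only [β, if_neg hb, mul_zero]
        exact mul_nonneg (hp0 _) (hq0 _)
    · simp only [α, if_neg ha, zero_mul]
      exact mul_nonneg (hp0 _) (hq0 _)
  have hsumπ : ∑ a, ∑ b, π a b = 1 := by
    rw [Finset.sum_congr rfl (fun a _ => hπ'.2.1 a), hμ.2]
  have hM := h α β p q hcomp Finset.univ Finset.univ
  have hM1 : (∑ a, α a) * (∑ b, β b) ≤ 1 := by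
    refine hM.trans ?_
    have h1 : ∑ c ∈ image₂ φ univ univ, p c ≤ 1 := by
      calc ∑ c ∈ image₂ φ univ univ, p c ≤ ∑ c, p c :=
            Finset.sum_le_sum_of_subset_of_nonneg (Finset.subset_univ _) fun i _ _ => hp0 i
        _ = 1 := by rw [hp, sum_push, hsumπ]
    have h2 : ∑ c ∈ image₂ ψ univ univ, q c ≤ 1 := by
      calc ∑ c ∈ image₂ ψ univ univ, q c ≤ ∑ c, q c :=
            Finset.sum_le_sum_of_subset_of_nonneg (Finset.subset_univ _) fun i _ _ => hq0 i
        _ = 1 := by rw [hq, sum_push, hsumπ]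
    have h3 : 0 ≤ ∑ c ∈ image₂ ψ univ univ, q c := Finset.sum_nonneg fun i _ => hq0 i
    nlinarith [Finset.sum_nonneg fun i (_ : i ∈ image₂ φ univ univ) => hp0 i]
  have g1 := gibbs Finset.univ μ α hμ.1 hμ.2 hα (fun s hs => ⟨Finset.mem_univ s, by
    simp only [α, if_pos ((memA s).mpr hs)]; exact Real.exp_pos _⟩)
  have g2 := gibbs Finset.univ ν β hν.1 hν.2 hβ (fun s hs => ⟨Finset.mem_univ s, by
    simp only [β, if_pos ((memB s).mpr hs)]; exact Real.exp_pos _⟩)
  have hαpos : 0 < ∑ a, α a := lt_of_lt_of_le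
    (by simp only [α, if_pos ha0]; exact Real.exp_pos _ : 0 < α a0)
    (Finset.single_le_sum (fun i _ => hα i) (Finset.mem_univ a0))
  have hβpos : 0 < ∑ b, β b := lt_of_lt_of_le
    (by simp only [β, if_pos hb0]; exact Real.exp_pos _ : 0 < β b0)
    (Finset.single_le_sum (fun i _ => hβ i) (Finset.mem_univ b0))
  have hlog : Real.log (∑ a, α a) + Real.log (∑ b, β b) ≤ 0 := by
    rw [← Real.log_mul hαpos.ne' hβpos.ne']
    exact Real.log_nonpos (mul_pos hαpos hβpos).le hM1
  have s1 : ∑ s, μ s * Real.log (α s) = -∑ a, ∑ b, π a b * f a := by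
    rw [← Finset.sum_neg_distrib]
    refine Finset.sum_congr rfl fun a _ => ?_
    rw [← Finset.sum_mul, hπ'.2.1 a]
    by_cases ha : a ∈ A0
    · simp only [α, if_pos ha, Real.log_exp]; ring
    · have : μ a = 0 := by
        by_contra hne; exact ha ((memA a).mpr hne)
      simp [this]
  have s2 : ∑ s, ν s * Real.log (β s) = -∑ a, ∑ b, π a b * g b := by
    rw [Finset.sum_comm, ← Finset.sum_neg_distrib]
    refine Finset.sum_congr rfl fun b _ => ?_
    rw [← Finset.sum_mul, hπ'.2.2 b]
    by_cases hb : b ∈ B0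
    · simp only [β, if_pos hb, Real.log_exp]; ring
    · have : ν b = 0 := by
        by_contra hne; exact hb ((memB b).mpr hne)
      simp [this]
  have hzeroA : ∀ a b, a ∉ A0 → π a b = 0 := by
    intro a b ha
    have hz : μ a = 0 := by
      by_contra hne; exact ha ((memA a).mpr hne)
    have h1 : π a b ≤ μ a := by
      rw [← hπ'.2.1 a]
      exact Finset.single_le_sum (fun i _ => hπ'.1 a i) (Finset.mem_univ b)
    exact le_antisymm (by rw [hz] at h1; exact h1) (hπ'.1 a b)
  have hzeroB : ∀ a b, b ∉ B0 → π a b = 0 := by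
    intro a b hb
    have hz : ν b = 0 := by
      by_contra hne; exact hb ((memB b).mpr hne)
    have h1 : π a b ≤ ν b := by
      rw [← hπ'.2.2 b]
      exact Finset.single_le_sum (f := fun i => π i b) (fun i _ => hπ'.1 i b) (Finset.mem_univ a)
    exact le_antisymm (by rw [hz] at h1; exact h1) (hπ'.1 a b)
  have hterm : ∀ a b, π a b * f a + π a b * g b ≤
      (-(π a b * Real.log (p (φ a b)))) + (-(π a b * Real.log (q (ψ a b)))) + 1 / N := by
    intro a b
    by_cases ha : a ∈ A0
    · by_cases hb : b ∈ B0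
      · have h1 : f a + g b = k a b := (hsep a ha b hb).symm
        have h2 := hpos a ha b hb
        rw [← mul_add, h1]
        simp only [k]
        have h3 : π a b * (1 / (N * π a b)) = 1 / N := by field_simp
        nlinarith [h3]
      · rw [hzeroB a b hb]
        simp only [zero_mul, neg_zero, add_zero, zero_add]
        positivity
    · rw [hzeroA a b ha]
      simp only [zero_mul, neg_zero, add_zero, zero_add]
      positivity
  have hsum : ∑ a, ∑ b, π a b * f a + ∑ a, ∑ b, π a b * g b ≤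
      entropy p + entropy q + (Fintype.card S : ℝ) ^ 2 / N := by
    rw [hp, hq, entropy_push_eq, entropy_push_eq, ← hp, ← hq]
    have h1 := Finset.sum_le_sum fun a (_ : a ∈ Finset.univ) =>
      Finset.sum_le_sum fun b (_ : b ∈ Finset.univ) => hterm a b
    simp only [Finset.sum_add_distrib, Finset.sum_neg_distrib, Finset.sum_const,
      Finset.card_univ, nsmul_eq_mul] at h1
    have h2 : (Fintype.card S : ℝ) * ((Fintype.card S : ℝ) * (1 / N)) =
        (Fintype.card S : ℝ) ^ 2 / N := by ring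
    rw [h2] at h1
    exact h1
  refine ⟨π, hπ', ?_⟩
  unfold F
  rw [s1] at g1
  rw [s2] at g2
  linarith

theorem entropyExpansive_of_mExpansive (φ ψ : S → S → S) (h : MExpansive φ ψ) :
    EntropyExpansive φ ψ := by
  intro μ ν hμ hν
  obtain ⟨π, hπ, hmax⟩ := (isCompact_couplings (ν := ν) hμ).exists_isMaxOn
    ⟨_, isCoupling_prod hμ hν⟩ (continuous_F φ ψ).continuousOn
  refine ⟨π, hπ, ?_⟩
  have hF : entropy (push φ π) + entropy (push ψ π) = F φ ψ π := rfl
  rw [hF]
  refine le_of_forall_pos_le_add fun ε hε => ?_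
  obtain ⟨π', hπ', hle⟩ := approx φ ψ h hμ hν (((Fintype.card S : ℝ) ^ 2 + 1) / ε)
    (by positivity)
  have h1 : F φ ψ π' ≤ F φ ψ π := hmax hπ'
  have h2 : (Fintype.card S : ℝ) ^ 2 / (((Fintype.card S : ℝ) ^ 2 + 1) / ε) ≤ ε := by
    rw [div_div_eq_mul_div, div_le_iff₀ (by positivity)]
    nlinarith
  linarith

theorem mExpansive_iff_entropyExpansive (φ ψ : S → S → S) :
    MExpansive φ ψ ↔ EntropyExpansive φ ψ :=
  ⟨entropyExpansive_of_mExpansive φ ψ, mExpansive_of_entropyExpansive φ ψ⟩

/-! ### Extensions by bijections -/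

lemma cardExpansive_of_mExpansive (φ ψ : S → S → S) (h : MExpansive φ ψ) {T : Type*}
    [Fintype T] [DecidableEq T] (e : S → S → Equiv.Perm (T × T)) :
    CardExpansive (extFst φ e) (extSnd ψ e) := by
  intro A B
  let fib : Finset (S × T) → S → ℝ := fun X s => ((univ.filter fun t => (s, t) ∈ X).card : ℝ)
  have hfib : ∀ X : Finset (S × T), ∑ s, fib X s = (X.card : ℝ) := by
    intro X
    have h1 : X.card = ∑ s, (univ.filter fun t => (s, t) ∈ X).card := by
      rw [Finset.card_eq_sum_card_fiberwise (f := Prod.fst) (t := univ) (fun x _ => by simp)]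
      refine Finset.sum_congr rfl fun s _ => ?_
      refine Finset.card_bij' (fun x _ => x.2) (fun t _ => (s, t)) ?_ ?_ ?_ ?_
      · rintro ⟨s', t⟩ hx
        simp only [mem_filter] at hx
        obtain ⟨hx1, rfl⟩ := hx
        simpa using hx1
      · intro t ht
        simpa using ht
      · rintro ⟨s', t⟩ hx
        simp only [mem_filter] at hx
        obtain ⟨hx1, rfl⟩ := hx
        rfl
      · intro t _
        rfl
    simp only [fib]
    rw [h1]
    push_cast
    rfl
  have hc : Compatible φ ψ (fib A) (fib B) (fib (image₂ (extFst φ e) A B))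
      (fib (image₂ (extSnd ψ e) A B)) := by
    refine ⟨fun _ => Nat.cast_nonneg _, fun _ => Nat.cast_nonneg _, fun _ => Nat.cast_nonneg _,
      fun _ => Nat.cast_nonneg _, fun a b => ?_⟩
    simp only [fib]
    rw [← Nat.cast_mul, ← Nat.cast_mul, Nat.cast_le, ← Finset.card_product,
      ← Finset.card_product]
    refine Finset.card_le_card_of_injOn (fun p => e a b p) ?_ ?_
    · rintro ⟨t, t'⟩ hp
      simp only [coe_product, Set.mem_prod, mem_coe, mem_filter, mem_univ, true_and] at hp ⊢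
      exact ⟨mem_image₂.mpr ⟨(a, t), hp.1, (b, t'), hp.2, rfl⟩,
        mem_image₂.mpr ⟨(a, t), hp.1, (b, t'), hp.2, rfl⟩⟩
    · exact fun x _ y _ hxy => (e a b).injective hxy
  have hM := h _ _ _ _ hc univ univ
  rw [hfib, hfib] at hM
  have h1 : ∑ c ∈ image₂ φ univ univ, fib (image₂ (extFst φ e) A B) c ≤
      ((image₂ (extFst φ e) A B).card : ℝ) := by
    rw [← hfib]
    exact Finset.sum_le_sum_of_subset_of_nonneg (subset_univ _) fun i _ _ => Nat.cast_nonneg _
  have h2 : ∑ c ∈ image₂ ψ univ univ, fib (image₂ (extSnd ψ e) A B) c ≤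
      ((image₂ (extSnd ψ e) A B).card : ℝ) := by
    rw [← hfib]
    exact Finset.sum_le_sum_of_subset_of_nonneg (subset_univ _) fun i _ _ => Nat.cast_nonneg _
  have h3 : 0 ≤ ∑ c ∈ image₂ ψ univ univ, fib (image₂ (extSnd ψ e) A B) c :=
    Finset.sum_nonneg fun i _ => Nat.cast_nonneg _
  have h4 := hM.trans (mul_le_mul h1 h2 h3 (Nat.cast_nonneg _))
  exact_mod_cast h4

/-- A permutation mapping a finite set into another one that is at least as large. -/
lemma exists_perm_mapping {X : Type*} [Fintype X] [DecidableEq X] (U V : Finset X)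
    (h : U.card ≤ V.card) : ∃ e : Equiv.Perm X, ∀ x ∈ U, e x ∈ V := by
  obtain ⟨W, hW, hcard⟩ := Finset.exists_subset_card_eq h
  let f : {x // x ∈ U} ≃ {x // x ∈ W} := Finset.equivOfCardEq hcard.symm
  refine ⟨f.extendSubtype, fun x hx => hW ?_⟩
  exact f.extendSubtype_mem x hx

/-- The subset `{(s, t) : s ∈ A, t < w s}` of `S × Fin n`. -/
def under (n : ℕ) (A : Finset S) (w : S → ℕ) : Finset (S × Fin n) :=
  (A ×ˢ univ).filter fun x => x.2.val < w x.1

lemma card_filter_lt {n m : ℕ} (h : m ≤ n) :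
    (univ.filter fun t : Fin n => t.val < m).card = m := by
  have : (univ.filter fun t : Fin n => t.val < m) =
      (univ : Finset (Fin m)).map (Fin.castLEEmb h) := by
    ext t
    simp only [mem_filter, mem_univ, true_and, mem_map, Fin.castLEEmb_apply]
    constructor
    · intro ht
      exact ⟨⟨t.val, ht⟩, by ext; simp⟩
    · rintro ⟨i, rfl⟩
      simp
  rw [this]
  simp

omit [Fintype S] in
lemma card_under (n : ℕ) (A : Finset S) (w : S → ℕ) (h : ∀ s, w s ≤ n) :
    (under n A w).card = ∑ s ∈ A, w s := by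
  unfold under
  rw [Finset.card_eq_sum_card_fiberwise (f := Prod.fst) (t := A) (fun x hx => by
    simp only [coe_filter, mem_product, mem_univ, and_true, Set.mem_ofPred_eq] at hx
    exact hx.1)]
  refine Finset.sum_congr rfl fun s hs => ?_
  rw [← card_filter_lt (h s)]
  refine Finset.card_bij' (fun x _ => x.2) (fun t _ => (s, t)) ?_ ?_ ?_ ?_
  · rintro ⟨s', t⟩ hx
    simp only [mem_filter, mem_product, mem_univ, and_true] at hx
    obtain ⟨⟨_, hx2⟩, rfl⟩ := hx
    simpa using hx2
  · intro t ht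
    simp only [mem_filter, mem_univ, true_and] at ht
    simp [hs, ht]
  · rintro ⟨s', t⟩ hx
    simp only [mem_filter] at hx
    obtain ⟨_, rfl⟩ := hx
    rfl
  · intro t _
    rfl

lemma nat_inequality (φ ψ : S → S → S)
    (h : ∀ (n : ℕ) (e : S → S → Equiv.Perm (Fin n × Fin n)),
      CardExpansive (extFst φ e) (extSnd ψ e))
    (a b c d : S → ℕ) (hc : ∀ s t, a s * b t ≤ c (φ s t) * d (ψ s t)) (A B : Finset S) :
    (∑ s ∈ A, a s) * (∑ s ∈ B, b s) ≤
      (∑ s ∈ image₂ φ A B, c s) * (∑ s ∈ image₂ ψ A B, d s) := by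
  set n : ℕ := ∑ s, (a s + b s + c s + d s) with hn
  have hbound : ∀ s, a s + b s + c s + d s ≤ n := fun s =>
    Finset.single_le_sum (f := fun s => a s + b s + c s + d s) (fun _ _ => Nat.zero_le _)
      (mem_univ s)
  have ha : ∀ s, a s ≤ n := fun s => by have := hbound s; omega
  have hb : ∀ s, b s ≤ n := fun s => by have := hbound s; omega
  have hc' : ∀ s, c s ≤ n := fun s => by have := hbound s; omega
  have hd : ∀ s, d s ≤ n := fun s => by have := hbound s; omega
  have hex : ∀ s t : S, ∃ e : Equiv.Perm (Fin n × Fin n),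
      ∀ x ∈ (univ.filter fun i : Fin n => i.val < a s) ×ˢ (univ.filter fun i : Fin n => i.val < b t),
        e x ∈ (univ.filter fun i : Fin n => i.val < c (φ s t)) ×ˢ
          (univ.filter fun i : Fin n => i.val < d (ψ s t)) := by
    intro s t
    apply exists_perm_mapping
    rw [card_product, card_product, card_filter_lt (ha s), card_filter_lt (hb t),
      card_filter_lt (hc' _), card_filter_lt (hd _)]
    exact hc s t
  choose e he using hex
  have h1 := h n e (under n A a) (under n B b)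
  rw [card_under n A a ha, card_under n B b hb] at h1
  have h2 : image₂ (extFst φ e) (under n A a) (under n B b) ⊆ under n (image₂ φ A B) c := by
    intro x hx
    obtain ⟨⟨s, i⟩, hs, ⟨t, j⟩, ht, rfl⟩ := mem_image₂.mp hx
    simp only [under, mem_filter, mem_product, mem_univ, and_true] at hs ht ⊢
    have h3 := he s t (i, j) (by simp [hs.2, ht.2])
    simp only [mem_product, mem_filter, mem_univ, true_and] at h3
    exact ⟨mem_image₂_of_mem hs.1 ht.1, h3.1⟩
  have h2' : image₂ (extSnd ψ e) (under n A a) (under n B b) ⊆ under n (image₂ ψ A B) d := by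
    intro x hx
    obtain ⟨⟨s, i⟩, hs, ⟨t, j⟩, ht, rfl⟩ := mem_image₂.mp hx
    simp only [under, mem_filter, mem_product, mem_univ, and_true] at hs ht ⊢
    have h3 := he s t (i, j) (by simp [hs.2, ht.2])
    simp only [mem_product, mem_filter, mem_univ, true_and] at h3
    exact ⟨mem_image₂_of_mem hs.1 ht.1, h3.2⟩
  have h4 := Finset.card_le_card h2
  have h5 := Finset.card_le_card h2'
  rw [card_under n _ c hc'] at h4
  rw [card_under n _ d hd] at h5
  exact h1.trans (Nat.mul_le_mul h4 h5)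

theorem mExpansive_of_cardExpansive (φ ψ : S → S → S)
    (h : ∀ (n : ℕ) (e : S → S → Equiv.Perm (Fin n × Fin n)),
      CardExpansive (extFst φ e) (extSnd ψ e)) : MExpansive φ ψ := by
  rintro α β γ δ ⟨hα, hβ, hγ, hδ, hc⟩ A B
  have key : ∀ N : ℕ, ((∑ s ∈ A, ((⌊α s * N⌋₊ : ℕ) : ℝ) / N) *
      (∑ s ∈ B, ((⌊β s * N⌋₊ : ℕ) : ℝ) / N)) ≤
      (∑ s ∈ image₂ φ A B, ((⌈γ s * N⌉₊ : ℕ) : ℝ) / N) *
      (∑ s ∈ image₂ ψ A B, ((⌈δ s * N⌉₊ : ℕ) : ℝ) / N) := by
    intro N
    have h1 := nat_inequality φ ψ h (fun s => ⌊α s * N⌋₊) (fun s => ⌊β s * N⌋₊)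
      (fun s => ⌈γ s * N⌉₊) (fun s => ⌈δ s * N⌉₊) (fun s t => by
        have hN : (0 : ℝ) ≤ N := Nat.cast_nonneg N
        have e1 : ((⌊α s * N⌋₊ : ℕ) : ℝ) ≤ α s * N := Nat.floor_le (mul_nonneg (hα s) hN)
        have e2 : ((⌊β t * N⌋₊ : ℕ) : ℝ) ≤ β t * N := Nat.floor_le (mul_nonneg (hβ t) hN)
        have e3 : γ (φ s t) * N ≤ ((⌈γ (φ s t) * N⌉₊ : ℕ) : ℝ) := Nat.le_ceil _
        have e4 : δ (ψ s t) * N ≤ ((⌈δ (ψ s t) * N⌉₊ : ℕ) : ℝ) := Nat.le_ceil _
        have e5 : ((⌊α s * N⌋₊ * ⌊β t * N⌋₊ : ℕ) : ℝ) ≤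
            ((⌈γ (φ s t) * N⌉₊ * ⌈δ (ψ s t) * N⌉₊ : ℕ) : ℝ) := by
          push_cast
          calc ((⌊α s * N⌋₊ : ℕ) : ℝ) * ((⌊β t * N⌋₊ : ℕ) : ℝ) ≤ (α s * N) * (β t * N) :=
                mul_le_mul e1 e2 (Nat.cast_nonneg _) (mul_nonneg (hα s) hN)
            _ = (α s * β t) * (N * N) := by ring
            _ ≤ (γ (φ s t) * δ (ψ s t)) * (N * N) :=
                mul_le_mul_of_nonneg_right (hc s t) (mul_nonneg hN hN)
            _ = (γ (φ s t) * N) * (δ (ψ s t) * N) := by ring
            _ ≤ _ := mul_le_mul e3 e4 (mul_nonneg (hδ _) hN) (Nat.cast_nonneg _)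
        exact_mod_cast e5) A B
    have h2 : ((∑ s ∈ A, ((⌊α s * N⌋₊ : ℕ) : ℝ)) * (∑ s ∈ B, ((⌊β s * N⌋₊ : ℕ) : ℝ))) ≤
        (∑ s ∈ image₂ φ A B, ((⌈γ s * N⌉₊ : ℕ) : ℝ)) *
        (∑ s ∈ image₂ ψ A B, ((⌈δ s * N⌉₊ : ℕ) : ℝ)) := by exact_mod_cast h1
    simp_rw [← Finset.sum_div]
    rw [div_mul_div_comm, div_mul_div_comm]
    exact div_le_div_of_nonneg_right h2 (by positivity)
  have lim1 : ∀ (X : Finset S) (w : S → ℝ), (∀ s, 0 ≤ w s) →
      Filter.Tendsto (fun N : ℕ => ∑ s ∈ X, ((⌊w s * N⌋₊ : ℕ) : ℝ) / N) Filter.atTop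
        (nhds (∑ s ∈ X, w s)) := fun X w hw =>
    tendsto_finsetSum _ fun s _ =>
      (tendsto_nat_floor_mul_div_atTop (R := ℝ) (hw s)).comp tendsto_natCast_atTop_atTop
  have lim2 : ∀ (X : Finset S) (w : S → ℝ), (∀ s, 0 ≤ w s) →
      Filter.Tendsto (fun N : ℕ => ∑ s ∈ X, ((⌈w s * N⌉₊ : ℕ) : ℝ) / N) Filter.atTop
        (nhds (∑ s ∈ X, w s)) := fun X w hw =>
    tendsto_finsetSum _ fun s _ =>
      (tendsto_nat_ceil_mul_div_atTop (R := ℝ) (hw s)).comp tendsto_natCast_atTop_atTop
  exact le_of_tendsto_of_tendsto' ((lim1 A α hα).mul (lim1 B β hβ))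
    ((lim2 _ γ hγ).mul (lim2 _ δ hδ)) key

end Pool.Agent.Lib_helper58.MExp
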