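import Mathlib
import Pool.Agent.Lib_helper58.MExp.Core

namespace Pool.Agent.Lib_helper58.MExp

open Finset

variable {S : Type*} [Fintype S] [DecidableEq S]

/-- Necessary condition: the pair is injective on each row. -/
theorem row_injective (φ ψ : S → S → S) (h : MExpansive φ ψ) (a : S) :
    Function.Injective fun b => (φ a b, ψ a b) := by
  intro b b' hbb
  by_contra hne
  simp only [Prod.mk.injEq] at hbb
  obtain ⟨h1, h2⟩ := hbb
  let α : S → ℝ := fun s => if s = a then 1 else 0
  let β : S → ℝ := fun s => if s = b ∨ s = b' then 1 else 0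
  let γ : S → ℝ := fun s => if s = φ a b then 1 else 0
  let δ : S → ℝ := fun s => if s = ψ a b then 1 else 0
  have hc : Compatible φ ψ α β γ δ := by
    refine ⟨fun s => ?_, fun s => ?_, fun s => ?_, fun s => ?_, fun x y => ?_⟩
    · simp only [α]; split_ifs <;> norm_num
    · simp only [β]; split_ifs <;> norm_num
    · simp only [γ]; split_ifs <;> norm_num
    · simp only [δ]; split_ifs <;> norm_num
    · by_cases hx : x = a
      · by_cases hy : y = b ∨ y = b'
        · subst hx
          have e1 : φ x y = φ x b := by
            rcases hy with rfl | rfl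
            · rfl
            · exact h1.symm
          have e2 : ψ x y = ψ x b := by
            rcases hy with rfl | rfl
            · rfl
            · exact h2.symm
          simp [α, β, γ, δ, hy, e1, e2]
        · simp only [β, if_neg hy, mul_zero]
          simp only [γ, δ]
          split_ifs <;> norm_num
      · simp only [α, if_neg hx, zero_mul]
        simp only [γ, δ]
        split_ifs <;> norm_num
  have hM := h α β γ δ hc {a} {b, b'}
  have e1 : ∑ s ∈ ({a} : Finset S), α s = 1 := by simp [α]
  have e2 : ∑ s ∈ ({b, b'} : Finset S), β s = 2 := by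
    rw [Finset.sum_pair hne]
    simp [β]
    norm_num
  have e3 : ∑ s ∈ image₂ φ {a} {b, b'}, γ s ≤ 1 := by
    calc ∑ s ∈ image₂ φ {a} {b, b'}, γ s ≤ ∑ s, γ s :=
          Finset.sum_le_sum_of_subset_of_nonneg (subset_univ _) fun i _ _ => hc.2.2.1 i
      _ = 1 := by simp [γ]
  have e4 : ∑ s ∈ image₂ ψ {a} {b, b'}, δ s ≤ 1 := by
    calc ∑ s ∈ image₂ ψ {a} {b, b'}, δ s ≤ ∑ s, δ s :=
          Finset.sum_le_sum_of_subset_of_nonneg (subset_univ _) fun i _ _ => hc.2.2.2.1 i
      _ = 1 := by simp [δ]
  rw [e1, e2] at hM
  have e5 : 0 ≤ ∑ s ∈ image₂ φ {a} {b, b'}, γ s := Finset.sum_nonneg fun i _ => hc.2.2.1 i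
  have e6 : 0 ≤ ∑ s ∈ image₂ ψ {a} {b, b'}, δ s := Finset.sum_nonneg fun i _ => hc.2.2.2.1 i
  nlinarith

omit [Fintype S] in
/-- M-expansivity is symmetric under exchanging the arguments. -/
theorem mExpansive_flip (φ ψ : S → S → S) (h : MExpansive φ ψ) :
    MExpansive (fun a b => φ b a) (fun a b => ψ b a) := by
  rintro α β γ δ ⟨h1, h2, h3, h4, h5⟩ A B
  have := h β α γ δ ⟨h2, h1, h3, h4, fun a b => by rw [mul_comm]; exact h5 b a⟩ B A
  rw [mul_comm] at this
  have e1 : image₂ (fun a b => φ b a) A B = image₂ φ B A := by
    rw [Finset.image₂_swap]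
  have e2 : image₂ (fun a b => ψ b a) A B = image₂ ψ B A := by
    rw [Finset.image₂_swap]
  rw [e1, e2]
  exact this

omit [Fintype S] in
/-- M-expansivity is symmetric under exchanging the operations. -/
theorem mExpansive_swap (φ ψ : S → S → S) (h : MExpansive φ ψ) : MExpansive ψ φ := by
  rintro α β γ δ ⟨h1, h2, h3, h4, h5⟩ A B
  have := h α β δ γ ⟨h1, h2, h4, h3, fun a b => (h5 a b).trans_eq (mul_comm _ _)⟩ A B
  rw [mul_comm (∑ c ∈ image₂ ψ A B, γ c)]
  exact this

/-- Necessary condition: the pair is injective on each column. -/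
theorem col_injective (φ ψ : S → S → S) (h : MExpansive φ ψ) (b : S) :
    Function.Injective fun a => (φ a b, ψ a b) :=
  row_injective _ _ (mExpansive_flip φ ψ h) b

/-- Pushing a product through an operation which is injective in the first variable does not
decrease the entropy of the first factor. -/
theorem entropy_push_prod_left (φ : S → S → S) (hφ : ∀ b, Function.Injective fun a => φ a b)
    {μ ν : S → ℝ} (hμ : IsProb μ) (hν : IsProb ν) :
    entropy μ ≤ entropy (push φ fun a b => μ a * ν b) := by
  -- for each b the map a ↦ φ a b is a bijection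
  let e : S → Equiv.Perm S := fun b =>
    Equiv.ofBijective (fun a => φ a b) (Finite.injective_iff_bijective.mp (hφ b))
  have he : ∀ a b, e b a = φ a b := fun a b => rfl
  have hpush : ∀ c, push φ (fun a b => μ a * ν b) c = ∑ b, ν b * μ ((e b).symm c) := by
    intro c
    unfold push
    rw [Finset.sum_comm]
    refine Finset.sum_congr rfl fun b _ => ?_
    have h1 : ∀ a, (if φ a b = c then μ a * ν b else 0) =
        if a = (e b).symm c then μ a * ν b else 0 := by
      intro a
      have : φ a b = c ↔ a = (e b).symm c := by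
        rw [← he, Equiv.eq_symm_apply]
      simp [this]
    simp_rw [h1]
    rw [Finset.sum_ite_eq' univ ((e b).symm c) (fun a => μ a * ν b)]
    simp [mul_comm]
  have hconc : ∀ c, ∑ b, ν b * Real.negMulLog (μ ((e b).symm c)) ≤
      Real.negMulLog (push φ (fun a b => μ a * ν b) c) := by
    intro c
    rw [hpush c]
    have := Real.concaveOn_negMulLog.le_map_sum (t := univ) (w := ν)
      (p := fun b => μ ((e b).symm c)) (fun b _ => hν.1 b) hν.2
      (fun b _ => hμ.1 _)
    simpa [smul_eq_mul] using this
  have hsum := Finset.sum_le_sum fun c (_ : c ∈ (univ : Finset S)) => hconc c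
  have hl : ∑ c, ∑ b, ν b * Real.negMulLog (μ ((e b).symm c)) = entropy μ := by
    rw [Finset.sum_comm]
    have h1 : ∀ b, ∑ c, ν b * Real.negMulLog (μ ((e b).symm c)) = ν b * entropy μ := by
      intro b
      rw [← Finset.mul_sum]
      congr 1
      exact Equiv.sum_comp (e b).symm (fun a => Real.negMulLog (μ a))
    simp_rw [h1]
    rw [← Finset.sum_mul, hν.2, one_mul]
  rw [hl] at hsum
  exact hsum

theorem push_flip (φ : S → S → S) (π : S → S → ℝ) :
    push (fun a b => φ b a) (fun a b => π b a) = push φ π := by
  funext c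
  unfold push
  rw [Finset.sum_comm]

theorem entropy_push_prod_right (ψ : S → S → S) (hψ : ∀ a, Function.Injective fun b => ψ a b)
    {μ ν : S → ℝ} (hμ : IsProb μ) (hν : IsProb ν) :
    entropy ν ≤ entropy (push ψ fun a b => μ a * ν b) := by
  have h1 := entropy_push_prod_left (fun a b => ψ b a) hψ hν hμ
  have h2 := push_flip ψ (fun a b => μ a * ν b)
  have h3 : (fun a b => ν a * μ b) = fun a b => μ b * ν a := by
    funext a b; ring
  rw [h3, h2] at h1
  exact h1

/-- Cancellative pairs are M-expansive. -/
theorem mExpansive_of_cancellative (φ ψ : S → S → S)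
    (hφ : ∀ b, Function.Injective fun a => φ a b) (hψ : ∀ a, Function.Injective fun b => ψ a b) :
    MExpansive φ ψ := by
  apply mExpansive_of_entropyExpansive
  intro μ ν hμ hν
  exact ⟨fun a b => μ a * ν b, isCoupling_prod hμ hν, add_le_add
    (entropy_push_prod_left φ hφ hμ hν) (entropy_push_prod_right ψ hψ hμ hν)⟩

/-! ### Conservative pairs -/

/-- Two numbers between `u` and `v` with sum `u + v` have at least the entropy of `u, v`. -/
lemma negMulLog_spread {u v x y : ℝ} (hu : 0 ≤ u) (huv : u ≤ v) (hx1 : u ≤ x) (hx2 : x ≤ v)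
    (hsum : x + y = u + v) :
    Real.negMulLog u + Real.negMulLog v ≤ Real.negMulLog x + Real.negMulLog y := by
  rcases huv.eq_or_lt with h | h
  · have h1 : x = u := by linarith
    have h2 : y = v := by linarith
    rw [h1, h2]
  · -- x = (1-t) u + t v, y = t u + (1-t) v
    set t : ℝ := (x - u) / (v - u) with ht
    have hd : 0 < v - u := by linarith
    have ht0 : 0 ≤ t := div_nonneg (by linarith) hd.le
    have ht1 : t ≤ 1 := by rw [ht, div_le_one hd]; linarith
    have hx : x = (1 - t) * u + t * v := by
      have : t * (v - u) = x - u := by rw [ht]; field_simp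
      linarith
    have hy : y = t * u + (1 - t) * v := by
      have : t * (v - u) = x - u := by rw [ht]; field_simp
      linarith
    have hv : 0 ≤ v := by linarith
    have c1 := Real.concaveOn_negMulLog.2 (Set.mem_Ici.mpr hu) (Set.mem_Ici.mpr hv)
      (by linarith : 0 ≤ 1 - t) ht0 (by ring)
    have c2 := Real.concaveOn_negMulLog.2 (Set.mem_Ici.mpr hu) (Set.mem_Ici.mpr hv)
      ht0 (by linarith : 0 ≤ 1 - t) (by ring)
    simp only [smul_eq_mul] at c1 c2
    rw [hx, hy]
    linarith

/-- Conservative exchange pairs are M-expansive. -/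
theorem mExpansive_of_exchange (φ ψ : S → S → S)
    (h : ∀ a b, (φ a b = a ∧ ψ a b = b) ∨ (φ a b = b ∧ ψ a b = a)) : MExpansive φ ψ := by
  apply mExpansive_of_entropyExpansive
  intro μ ν hμ hν
  let m : S → ℝ := fun s => min (μ s) (ν s)
  let x : S → ℝ := fun s => μ s - m s
  let y : S → ℝ := fun s => ν s - m s
  have hm0 : ∀ s, 0 ≤ m s := fun s => le_min (hμ.1 s) (hν.1 s)
  have hx0 : ∀ s, 0 ≤ x s := fun s => sub_nonneg.mpr (min_le_left _ _)
  have hy0 : ∀ s, 0 ≤ y s := fun s => sub_nonneg.mpr (min_le_right _ _)
  set r : ℝ := ∑ s, x s with hr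
  have hr' : ∑ s, y s = r := by
    simp only [hr, x, y, Finset.sum_sub_distrib, hμ.2, hν.2]
  have hr0 : 0 ≤ r := Finset.sum_nonneg fun s _ => hx0 s
  let ρ : S → S → ℝ := fun a b => x a * y b / r
  let π : S → S → ℝ := fun a b => (if a = b then m a else 0) + ρ a b
  have hxr : ∀ a, x a * r / r = x a := by
    intro a
    rcases hr0.eq_or_lt with h0 | h0
    · have : x a = 0 := by
        have h1 := Finset.sum_eq_zero_iff_of_nonneg (s := univ) (f := x) (fun s _ => hx0 s)
        exact (h1.mp (by rw [← hr, ← h0])) a (mem_univ a)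
      rw [this]; simp
    · field_simp
  have hyr : ∀ b, r * y b / r = y b := by
    intro b
    rcases hr0.eq_or_lt with h0 | h0
    · have : y b = 0 := by
        have h1 := Finset.sum_eq_zero_iff_of_nonneg (s := univ) (f := y) (fun s _ => hy0 s)
        exact (h1.mp (by rw [hr', ← h0])) b (mem_univ b)
      rw [this]; simp
    · field_simp
  have hρrow : ∀ a, ∑ b, ρ a b = x a := by
    intro a
    simp only [ρ]
    rw [← Finset.sum_div, ← Finset.mul_sum, hr', hxr]
  have hρcol : ∀ b, ∑ a, ρ a b = y b := by
    intro b
    simp only [ρ]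
    rw [← Finset.sum_div, ← Finset.sum_mul, ← hr, hyr]
  have hρ0 : ∀ a b, 0 ≤ ρ a b := fun a b => div_nonneg (mul_nonneg (hx0 a) (hy0 b)) hr0
  have hπ0 : ∀ a b, 0 ≤ π a b := fun a b => by
    simp only [π]
    refine add_nonneg ?_ (hρ0 a b)
    split_ifs
    · exact hm0 a
    · exact le_refl _
  have hπ : IsCoupling π μ ν := by
    refine ⟨hπ0, fun a => ?_, fun b => ?_⟩
    · simp only [π, Finset.sum_add_distrib, hρrow]
      simp [x]
    · simp only [π, Finset.sum_add_distrib, hρcol]
      simp [y]
  -- the pushes
  have hdiag : ∀ a, φ a a = a ∧ ψ a a = a := by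
    intro a
    rcases h a a with h1 | h1 <;> exact h1
  have hpush : ∀ (χ : S → S → S), (∀ a, χ a a = a) → ∀ c,
      push χ π c = m c + ∑ a, ∑ b, if χ a b = c then ρ a b else 0 := by
    intro χ hχ c
    unfold push
    simp only [π]
    have h1 : ∀ a b, (if χ a b = c then (if a = b then m a else 0) + ρ a b else 0) =
        (if a = b then (if a = c then m a else 0) else 0) +
          (if χ a b = c then ρ a b else 0) := by
      intro a b
      by_cases hab : a = b
      · subst hab
        rw [hχ a]
        by_cases hac : a = c <;> simp [hac]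
      · by_cases hχc : χ a b = c <;> simp [hab, hχc]
    simp_rw [h1, Finset.sum_add_distrib]
    congr 1
    simp
  have hupper : ∀ (χ : S → S → S), (∀ a b, χ a b = a ∨ χ a b = b) → ∀ c,
      (∑ a, ∑ b, if χ a b = c then ρ a b else 0) ≤ x c + y c := by
    intro χ hχ c
    have h1 : ∀ a b, (if χ a b = c then ρ a b else 0) ≤
        (if a = c then ρ a b else 0) + (if b = c then ρ a b else 0) := by
      intro a b
      have hn := hρ0 a b
      rcases hχ a b with h2 | h2
      · rw [h2]
        by_cases ha : a = c
        · by_cases hb : b = c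
          · simp only [if_pos ha, if_pos hb]; linarith
          · simp only [if_pos ha, if_neg hb]; linarith
        · by_cases hb : b = c
          · simp only [if_neg ha, if_pos hb]; linarith
          · simp [ha, hb]
      · rw [h2]
        by_cases ha : a = c
        · by_cases hb : b = c
          · simp only [if_pos ha, if_pos hb]; linarith
          · simp only [if_pos ha, if_neg hb]; linarith
        · by_cases hb : b = c <;> simp [ha, hb]
    calc (∑ a, ∑ b, if χ a b = c then ρ a b else 0)
        ≤ ∑ a, ∑ b, ((if a = c then ρ a b else 0) + (if b = c then ρ a b else 0)) :=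
          Finset.sum_le_sum fun a _ => Finset.sum_le_sum fun b _ => h1 a b
      _ = x c + y c := by
          simp_rw [Finset.sum_add_distrib]
          congr 1
          · have : ∀ a, (∑ b, if a = c then ρ a b else 0) = if a = c then x a else 0 := by
              intro a
              by_cases ha : a = c
              · simp [ha, hρrow]
              · simp [ha]
            simp_rw [this]
            simp
          · simp [hρcol]
  have hsumρ : ∀ c, (∑ a, ∑ b, if φ a b = c then ρ a b else 0) +
      (∑ a, ∑ b, if ψ a b = c then ρ a b else 0) = x c + y c := by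
    intro c
    rw [← Finset.sum_add_distrib]
    simp_rw [← Finset.sum_add_distrib]
    have h1 : ∀ a b, ((if φ a b = c then ρ a b else 0) + (if ψ a b = c then ρ a b else 0)) =
        (if a = c then ρ a b else 0) + (if b = c then ρ a b else 0) := by
      intro a b
      rcases h a b with ⟨h2, h3⟩ | ⟨h2, h3⟩
      · rw [h2, h3]
      · rw [h2, h3, add_comm]
    simp_rw [h1, Finset.sum_add_distrib]
    congr 1
    · have : ∀ a, (∑ b, if a = c then ρ a b else 0) = if a = c then x a else 0 := by
        intro a
        by_cases ha : a = c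
        · simp [ha, hρrow]
        · simp [ha]
      simp_rw [this]
      simp
    · simp [hρcol]
  have hpos : ∀ (χ : S → S → S) c, 0 ≤ ∑ a, ∑ b, if χ a b = c then ρ a b else 0 := by
    intro χ c
    refine Finset.sum_nonneg fun a _ => Finset.sum_nonneg fun b _ => ?_
    split_ifs
    · exact hρ0 a b
    · exact le_refl _
  refine ⟨π, hπ, ?_⟩
  unfold entropy
  rw [← Finset.sum_add_distrib, ← Finset.sum_add_distrib]
  refine Finset.sum_le_sum fun c _ => ?_
  have e1 := hpush φ (fun a => (hdiag a).1) c
  have e2 := hpush ψ (fun a => (hdiag a).2) c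
  have e3 := hsumρ c
  have e4 := hpos φ c
  have e5 := hpos ψ c
  have e6 := hupper φ (fun a b => by rcases h a b with h1 | h1 <;> simp [h1.1]) c
  rw [e1, e2]
  -- either x c = 0 or y c = 0
  by_cases hle : μ c ≤ ν c
  · have hmc : m c = μ c := min_eq_left hle
    have hxc : x c = 0 := by simp only [x, hmc, sub_self]
    have hyc : y c = ν c - μ c := by simp only [y, hmc]
    rw [hmc]
    refine negMulLog_spread (hμ.1 c) hle (by linarith) (by linarith) (by linarith)
  · have hle' : ν c ≤ μ c := (not_le.mp hle).le
    have hmc : m c = ν c := min_eq_right hle'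
    have hxc : x c = μ c - ν c := by simp only [x, hmc]
    have hyc : y c = 0 := by simp only [y, hmc, sub_self]
    rw [hmc, add_comm (Real.negMulLog (μ c))]
    refine negMulLog_spread (hν.1 c) hle' (by linarith) (by linarith) (by linarith)

end Pool.Agent.Lib_helper58.MExp
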